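import Mathlib

set_option autoImplicit false

namespace Pool.Agent.J4H98.EP

open Finset

/-- upper bound for `-log (1-x)` -/
lemma log_one_sub_ge {x : ℝ} (h0 : 0 ≤ x) (h1 : x ≤ 1/2) :
    -(x + x^2/2 + x^3/3 + x^4/2) ≤ Real.log (1 - x) := by
  have key : MonotoneOn (fun t : ℝ => Real.log (1 - t) + (t + t^2/2 + t^3/3 + t^4/2)) (Set.Icc 0 (1/2)) := by
    apply monotoneOn_of_deriv_nonneg (convex_Icc 0 (1/2))
    · apply ContinuousOn.add
      · apply ContinuousOn.log
        · fun_prop
        · intro t ht
          have := ht.2
          linarith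
      · fun_prop
    · intro t ht
      rw [interior_Icc] at ht
      have h2 : (1 - t) ≠ 0 := by have := ht.2; linarith
      apply DifferentiableAt.differentiableWithinAt
      apply DifferentiableAt.add
      · apply DifferentiableAt.log
        · fun_prop
        · exact h2
      · fun_prop
    · intro t ht
      rw [interior_Icc] at ht
      have h2 : 0 < (1 - t) := by have := ht.2; linarith
      have hd : HasDerivAt (fun t : ℝ => Real.log (1 - t) + (t + t^2/2 + t^3/3 + t^4/2))
          ((-1) / (1 - t) + (1 + (2 * t^1)/2 + (3 * t^2)/3 + (4*t^3)/2)) t := by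
        apply HasDerivAt.add
        · apply HasDerivAt.log
          · simpa using (hasDerivAt_id t).const_sub 1
          · exact ne_of_gt h2
        · apply HasDerivAt.add
          · apply HasDerivAt.add
            · apply HasDerivAt.add
              · exact hasDerivAt_id t
              · simpa using (hasDerivAt_pow 2 t).div_const 2
            · simpa using (hasDerivAt_pow 3 t).div_const 3
          · simpa using (hasDerivAt_pow 4 t).div_const 2
      rw [hd.deriv]
      have h3 : (-1) / (1 - t) + (1 + (2 * t^1)/2 + (3 * t^2)/3 + (4*t^3)/2)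
          = t^3 * (1 - 2 * t) / (1 - t) := by
        field_simp
        ring
      rw [h3]
      apply div_nonneg _ h2.le
      apply mul_nonneg (pow_nonneg ht.1.le 3)
      have := ht.2
      linarith
  have := key (Set.mem_Icc.mpr ⟨le_refl 0, by norm_num⟩) (Set.mem_Icc.mpr ⟨h0, h1⟩) h0
  simp at this
  linarith

/-- cubic lower bound for exp on all reals -/
lemma cubic_le_exp (y : ℝ) : 1 + y + y^2/2 + y^3/6 ≤ Real.exp y := by
  rcases le_or_gt 0 y with h | h
  · have := Real.sum_le_exp_of_nonneg h 4
    simp [Finset.sum_range_succ, Nat.factorial] at this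
    linarith
  · -- z = -y
    obtain ⟨z, rfl⟩ : ∃ z, y = -z := ⟨-y, by ring⟩
    have hz : 0 ≤ z := by linarith
    -- first : exp(-z) ≤ 1 - z + z^2/2
    have h1 : ∀ z : ℝ, 0 ≤ z → Real.exp (-z) ≤ 1 - z + z^2/2 := by
      intro z hz
      have key : MonotoneOn (fun t : ℝ => (1 - t + t^2/2) - Real.exp (-t)) (Set.Ici 0) := by
        apply monotoneOn_of_deriv_nonneg (convex_Ici 0)
        · fun_prop
        · fun_prop
        · intro t ht
          have hd : HasDerivAt (fun t : ℝ => (1 - t + t^2/2) - Real.exp (-t))
              ((0 - 1 + (2 * t^1)/2) - Real.exp (-t) * (-1)) t := by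
            apply HasDerivAt.sub
            · apply HasDerivAt.add
              · exact (hasDerivAt_const t (1:ℝ)).sub (hasDerivAt_id t)
              · simpa using (hasDerivAt_pow 2 t).div_const 2
            · exact (hasDerivAt_neg t).exp
          rw [hd.deriv]
          have := Real.add_one_le_exp (-t)
          linarith
      have := key (Set.mem_Ici.mpr (le_refl 0)) (Set.mem_Ici.mpr hz) hz
      simp at this
      linarith
    have key : MonotoneOn (fun t : ℝ => Real.exp (-t) - (1 - t + t^2/2 - t^3/6)) (Set.Ici 0) := by
      apply monotoneOn_of_deriv_nonneg (convex_Ici 0)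
      · fun_prop
      · fun_prop
      · intro t ht
        rw [interior_Ici] at ht
        have hd : HasDerivAt (fun t : ℝ => Real.exp (-t) - (1 - t + t^2/2 - t^3/6))
            (Real.exp (-t) * (-1) - (0 - 1 + (2 * t^1)/2 - (3 * t^2)/6)) t := by
          apply HasDerivAt.sub
          · exact (hasDerivAt_neg t).exp
          · apply HasDerivAt.sub
            · apply HasDerivAt.add
              · exact (hasDerivAt_const t (1:ℝ)).sub (hasDerivAt_id t)
              · simpa using (hasDerivAt_pow 2 t).div_const 2
            · simpa using (hasDerivAt_pow 3 t).div_const 6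
        rw [hd.deriv]
        have := h1 t (le_of_lt ht)
        linarith
    have := key (Set.mem_Ici.mpr (le_refl 0)) (Set.mem_Ici.mpr hz) hz
    simp at this
    nlinarith [this]

/-- lower bound for `log (m/(m-1))` -/
lemma log_ratio_ge {m : ℝ} (hm : 1 < m) :
    2 / (2*m - 1) + 2 / (3 * (2*m-1)^3) ≤ Real.log (1 + 1/(m-1)) := by
  have h := Real.hasSum_log_one_add_inv (a := m - 1) (by linarith)
  have h2 := sum_le_hasSum (Finset.range 2) (fun k _ => by positivity) h
  rw [Finset.sum_range_succ, Finset.sum_range_one] at h2
  have h3 : 2 * (m-1) + 1 = 2 * m - 1 := by ring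
  have hpos : 0 < 2 * m - 1 := by linarith
  rw [h3] at h2
  rw [← one_div] at h2
  generalize 2 * m - 1 = K at h2 hpos ⊢
  refine le_trans (le_of_eq ?_) h2
  push_cast
  have hK : K ≠ 0 := ne_of_gt hpos
  field_simp
  try ring

end Pool.Agent.J4H98.EP
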