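import Mathlib

set_option autoImplicit false

namespace Pool.Agent.J4H98.EP

open Finset

/-- moments of the geometric law -/
noncomputable def S (k : ℕ) : ℝ := ∑' j : ℕ, (j:ℝ)^k * (1/2:ℝ)^j

lemma S_summable (k : ℕ) : Summable (fun j : ℕ => (j:ℝ)^k * (1/2:ℝ)^j) :=
  summable_pow_mul_geometric_of_norm_lt_one k (by norm_num)

lemma S_hasSum (k : ℕ) : HasSum (fun j : ℕ => (j:ℝ)^k * (1/2:ℝ)^j) (S k) :=
  (S_summable k).hasSum

lemma S_rec (k : ℕ) : S k = 0^k + (1/2) * ∑ i ∈ Finset.range (k+1), (k.choose i : ℝ) * S i := by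
  have h := (S_summable k).tsum_eq_zero_add
  unfold S
  rw [h]
  congr 1
  · simp
  · have h2 : ∀ j : ℕ, ((j+1:ℕ):ℝ)^k * (1/2:ℝ)^(j+1) =
        ∑ i ∈ Finset.range (k+1), (1/2) * ((k.choose i : ℝ) * ((j:ℝ)^i * (1/2:ℝ)^j)) := by
      intro j
      push_cast
      rw [add_pow, Finset.sum_mul]
      apply Finset.sum_congr rfl
      intro i _
      rw [pow_succ]
      ring
    rw [tsum_congr h2]
    rw [Summable.tsum_finsetSum]
    · rw [Finset.mul_sum]
      apply Finset.sum_congr rfl
      intro i _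
      rw [tsum_mul_left, tsum_mul_left]
    · intro i _
      exact ((S_summable i).mul_left _).mul_left _

lemma S0 : S 0 = 2 := by
  have := S_rec 0
  simp at this
  linarith
lemma S1 : S 1 = 2 := by
  have := S_rec 1
  simp [Finset.sum_range_succ, Nat.choose, S0] at this
  linarith
lemma S2 : S 2 = 6 := by
  have := S_rec 2
  simp [Finset.sum_range_succ, Nat.choose, S0, S1] at this
  linarith
lemma S3 : S 3 = 26 := by
  have := S_rec 3
  simp [Finset.sum_range_succ, Nat.choose, S0, S1, S2] at this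
  linarith
lemma S4 : S 4 = 150 := by
  have := S_rec 4
  simp [Finset.sum_range_succ, Nat.choose, S0, S1, S2, S3] at this
  linarith
lemma S5 : S 5 = 1082 := by
  have := S_rec 5
  simp [Finset.sum_range_succ, Nat.choose, S0, S1, S2, S3, S4] at this
  linarith
lemma S6 : S 6 = 9366 := by
  have := S_rec 6
  simp [Finset.sum_range_succ, Nat.choose, S0, S1, S2, S3, S4, S5] at this
  linarith
lemma S7 : S 7 = 94586 := by
  have := S_rec 7
  simp [Finset.sum_range_succ, Nat.choose, S0, S1, S2, S3, S4, S5, S6] at this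
  linarith
lemma S8 : S 8 = 1091670 := by
  have := S_rec 8
  simp [Finset.sum_range_succ, Nat.choose, S0, S1, S2, S3, S4, S5, S6, S7] at this
  linarith
lemma S9 : S 9 = 14174522 := by
  have := S_rec 9
  simp [Finset.sum_range_succ, Nat.choose, S0, S1, S2, S3, S4, S5, S6, S7, S8] at this
  linarith
lemma S10 : S 10 = 204495126 := by
  have := S_rec 10
  simp [Finset.sum_range_succ, Nat.choose, S0, S1, S2, S3, S4, S5, S6, S7, S8, S9] at this
  linarith
lemma S11 : S 11 = 3245265146 := by
  have := S_rec 11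
  simp [Finset.sum_range_succ, Nat.choose, S0, S1, S2, S3, S4, S5, S6, S7, S8, S9, S10] at this
  linarith
lemma S12 : S 12 = 56183135190 := by
  have := S_rec 12
  simp [Finset.sum_range_succ, Nat.choose, S0, S1, S2, S3, S4, S5, S6, S7, S8, S9, S10, S11] at this
  linarith

end Pool.Agent.J4H98.EP
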