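import Pool.Agent.J4H98.EP2

set_option autoImplicit false

namespace Pool.Agent.J4H98.EP

open Finset

/-- the polynomial `g` -/
noncomputable def g (e : ℝ) (j : ℝ) : ℝ :=
  (3*e/2 + e^2/12) * j + (-e/2 + 3*e^2/4 + e^3/24) * j^2 + (-e^2/3 + e^3/2 + e^4/36) * j^3
    + (-e^3/2 + 3*e^4/4 + e^5/24) * j^4

/-- cubic Taylor part -/
noncomputable def P (y : ℝ) : ℝ := y + y^2/2 + y^3/6

noncomputable def F (L e : ℝ) : ℝ :=
  L * e^2 * ((6*L - 4) + (-247/4 + 78*L - 62*L^2) * e + (1019/9 + 1660*L - 1605*L^2) * e^2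
    + (25/4 + 314783/36*L - 99849/2*L^2) * e^3
    + (18299273/192*L - 24950531/36*L^2) * e^4
    + (-81175699/216*L - 1098522175/96*L^2) * e^5
    + (249048017/864*L - 116493875021/1728*L^2) * e^6
    + (7392419/216*L - 9309290205167/13824*L^2) * e^7
    + (181945/192*L + 46017041622743/10368*L^2) * e^8
    + (-300385301160175/41472*L^2) * e^9
    + (110096649300817/34992*L^2) * e^10
    + (26469394659577/41472*L^2) * e^11
    + (380047478819/10368*L^2) * e^12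
    + (9363855865/13824*L^2) * e^13)

lemma hasSum_P (L e : ℝ) :
    HasSum (fun j : ℕ => P (L * g e j) * (1/2:ℝ)^j) (F L e) := by
  set a1 := 3*e/2 + e^2/12 with ha1
  set a2 := -e/2 + 3*e^2/4 + e^3/24 with ha2
  set a3 := -e^2/3 + e^3/2 + e^4/36 with ha3
  set a4 := -e^3/2 + 3*e^4/4 + e^5/24 with ha4
  have h := ((((((((((((S_hasSum 1).mul_left (L*a1)).add
    ((S_hasSum 2).mul_left (L*a2 + L^2*a1^2/2))).add
    ((S_hasSum 3).mul_left (L*a3 + L^2*(2*a1*a2)/2 + L^3*a1^3/6))).add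
    ((S_hasSum 4).mul_left (L*a4 + L^2*(a2^2+2*a1*a3)/2 + L^3*(3*a1^2*a2)/6))).add
    ((S_hasSum 5).mul_left (L^2*(2*a1*a4+2*a2*a3)/2 + L^3*(3*a1^2*a3+3*a1*a2^2)/6))).add
    ((S_hasSum 6).mul_left (L^2*(a3^2+2*a2*a4)/2 + L^3*(3*a1^2*a4+6*a1*a2*a3+a2^3)/6))).add
    ((S_hasSum 7).mul_left (L^2*(2*a3*a4)/2 + L^3*(6*a1*a2*a4+3*a1*a3^2+3*a2^2*a3)/6))).add
    ((S_hasSum 8).mul_left (L^2*(a4^2)/2 + L^3*(6*a1*a3*a4+3*a2^2*a4+3*a2*a3^2)/6))).add
    ((S_hasSum 9).mul_left (L^3*(3*a1*a4^2+6*a2*a3*a4+a3^3)/6))).add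
    ((S_hasSum 10).mul_left (L^3*(3*a2*a4^2+3*a3^2*a4)/6))).add
    ((S_hasSum 11).mul_left (L^3*(3*a3*a4^2)/6))).add
    ((S_hasSum 12).mul_left (L^3*(a4^3)/6))
  rw [S1, S2, S3, S4, S5, S6, S7, S8, S9, S10, S11, S12] at h
  convert h using 1
  · rfl
  · funext j
    unfold P g
    rw [← ha1, ← ha2, ← ha3, ← ha4]
    ring
  · unfold F
    rw [ha1, ha2, ha3, ha4]
    ring

lemma F_pos {L e : ℝ} (hL1 : 0.6931 ≤ L) (hL2 : L ≤ 0.6932) (he0 : 0 < e) (he1 : e ≤ 1/400) :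
    0 < F L e := by
  obtain ⟨q, hq⟩ : ∃ q, q = L^2 := ⟨_, rfl⟩
  have hq1 : 0.48038 ≤ q := by rw [hq]; nlinarith
  have hq2 : q ≤ 0.48053 := by rw [hq]; nlinarith
  unfold F
  rw [← hq]
  apply mul_pos
  · apply mul_pos (by linarith) (by positivity)
  have d1 : -37.5 ≤ (-247/4 + 78*L - 62*q) := by linarith
  have d2 : 0 ≤ (1019/9 + 1660*L - 1605*q) := by linarith
  have d3 : -17930 ≤ (25/4 + 314783/36*L - 99849/2*q) := by linarith
  have d4 : -267000 ≤ (18299273/192*L - 24950531/36*q) := by linarith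
  have d5 : -5760000 ≤ (-81175699/216*L - 1098522175/96*q) := by linarith
  have d6 : -32300000 ≤ (249048017/864*L - 116493875021/1728*q) := by linarith
  have d7 : -324000000 ≤ (7392419/216*L - 9309290205167/13824*q) := by linarith
  have d8 : 0 ≤ (181945/192*L + 46017041622743/10368*q) := by linarith
  have d9 : -3490000000 ≤ (-300385301160175/41472*q) := by linarith
  have d10 : 0 ≤ (110096649300817/34992*q) := by linarith
  have d11 : 0 ≤ (26469394659577/41472*q) := by linarith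
  have d12 : 0 ≤ (380047478819/10368*q) := by linarith
  have d13 : 0 ≤ (9363855865/13824*q) := by linarith
  have p : ∀ k : ℕ, 0 ≤ e^k := fun k => pow_nonneg he0.le k
  have pb : ∀ k : ℕ, e^(k+1) ≤ e * (1/400)^k := by
    intro k
    rw [pow_succ, mul_comm]
    exact mul_le_mul_of_nonneg_left (pow_le_pow_left₀ he0.le he1 k) he0.le
  have m1 := mul_le_mul_of_nonneg_right d1 he0.le
  have m2 := mul_nonneg d2 (p 2)
  have m3 := mul_le_mul_of_nonneg_right d3 (p 3)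
  have m4 := mul_le_mul_of_nonneg_right d4 (p 4)
  have m5 := mul_le_mul_of_nonneg_right d5 (p 5)
  have m6 := mul_le_mul_of_nonneg_right d6 (p 6)
  have m7 := mul_le_mul_of_nonneg_right d7 (p 7)
  have m8 := mul_nonneg d8 (p 8)
  have m9 := mul_le_mul_of_nonneg_right d9 (p 9)
  have m10 := mul_nonneg d10 (p 10)
  have m11 := mul_nonneg d11 (p 11)
  have m12 := mul_nonneg d12 (p 12)
  have m13 := mul_nonneg d13 (p 13)
  have b3 := pb 2
  have b4 := pb 3
  have b5 := pb 4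
  have b6 := pb 5
  have b7 := pb 6
  have b9 := pb 8
  norm_num at b3 b4 b5 b6 b7 b9
  have d0 : 0.1586 ≤ 6*L - 4 := by linarith
  nlinarith [m1, m2, m3, m4, m5, m6, m7, m8, m9, m10, m11, m12, m13, b3, b4, b5, b6, b7, b9, d0]

end Pool.Agent.J4H98.EP
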