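import Pool.Agent.J4H98.EP1
import Pool.Agent.J4H98.EP3

set_option autoImplicit false

namespace Pool.Agent.J4H98.EP

open Finset

lemma g_eq {M : ℝ} (hM : M ≠ 0) (j : ℝ) :
    g (1/M) j = j - (M - 3/2 - 1/(12*M)) * (j/M + (j/M)^2/2 + (j/M)^3/3 + (j/M)^4/2) := by
  unfold g
  field_simp
  ring

lemma one_add_P_nonpos {y : ℝ} (hy : y ≤ -2) : 1 + P y ≤ 0 := by
  unfold P
  obtain ⟨t, rfl⟩ : ∃ t, y = -2 - t := ⟨-2 - y, by ring⟩
  have ht : 0 ≤ t := by linarith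
  have h2 : 0 ≤ t^2 := by positivity
  have h3 : 0 ≤ t^3 := by positivity
  nlinarith

lemma n_lt {m n : ℕ} (hm : 2 ≤ m) (h : (1 - 1 / (m : ℝ)) ^ n > 1 / 2) :
    (n:ℝ) * Real.log (1 + 1/((m:ℝ)-1)) < Real.log 2 := by
  have hm' : (2:ℝ) ≤ m := by exact_mod_cast hm
  have h1 : (0:ℝ) < 1 - 1/(m:ℝ) := by
    rw [sub_pos, div_lt_one (by linarith)]
    linarith
  have h2 : 1 + 1/((m:ℝ)-1) = (1 - 1/(m:ℝ))⁻¹ := by
    have : (m:ℝ) - 1 ≠ 0 := by linarith
    have h3 : (m:ℝ) ≠ 0 := by linarith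
    have h4 : (1 - 1/(m:ℝ)) ≠ 0 := ne_of_gt h1
    field_simp
    ring
  rw [h2, Real.log_inv]
  have h3 := Real.log_lt_log (by norm_num) h
  rw [Real.log_pow] at h3
  have h4 : Real.log (1/2) = - Real.log 2 := by
    rw [one_div, Real.log_inv]
  rw [h4] at h3
  linarith

lemma n_lt_m {m n : ℕ} (hm : 2 ≤ m) (h : (1 - 1 / (m : ℝ)) ^ n > 1 / 2) : n < m := by
  have hm' : (2:ℝ) ≤ m := by exact_mod_cast hm
  have h1 := n_lt hm h
  have h0 : (0:ℝ) < 1 - 1/(m:ℝ) := by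
    rw [sub_pos, div_lt_one (by linarith)]
    linarith
  have h2 : 1 + 1/((m:ℝ)-1) = (1 - 1/(m:ℝ))⁻¹ := by
    have : (m:ℝ) - 1 ≠ 0 := by linarith
    have h3 : (m:ℝ) ≠ 0 := by linarith
    have h4 : (1 - 1/(m:ℝ)) ≠ 0 := ne_of_gt h0
    field_simp
    ring
  rw [h2, Real.log_inv] at h1
  have h3 := Real.log_le_sub_one_of_pos h0
  have h4 := Real.log_two_lt_d9
  have h5 : (n:ℝ) * (1/(m:ℝ)) < 1 := by
    have hn : (0:ℝ) ≤ n := Nat.cast_nonneg n
    have : (n:ℝ) * (1/(m:ℝ)) ≤ (n:ℝ) * -Real.log (1 - 1/(m:ℝ)) := by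
      apply mul_le_mul_of_nonneg_left _ hn
      linarith
    linarith
  have h6 : (n:ℝ) < m := by
    have hmp : (0:ℝ) < m := by linarith
    have := mul_lt_mul_of_pos_right h5 hmp
    field_simp at this
    linarith
  exact_mod_cast h6

theorem big {m n : ℕ} (hm : 400 ≤ m) (h : (1 - 1 / (m : ℝ)) ^ n > 1 / 2) :
    1 < ∑ j ∈ Finset.Icc 1 m, (1 - (j:ℝ) / ((m:ℝ)+1)) ^ n := by
  set M : ℝ := (m:ℝ) + 1 with hMdef
  have hm' : (400:ℝ) ≤ m := by exact_mod_cast hm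
  have hM : (401:ℝ) ≤ M := by rw [hMdef]; linarith
  have hMpos : 0 < M := by linarith
  have hMne : M ≠ 0 := ne_of_gt hMpos
  set L := Real.log 2 with hL
  have hL1 : 0.6931 ≤ L := by have := Real.log_two_gt_d9; linarith
  have hL2 : L ≤ 0.6932 := by have := Real.log_two_lt_d9; linarith
  set ν : ℝ := M - 3/2 - 1/(12*M) with hν
  have hνlow : M - 1.6 ≤ ν := by
    have : 1/(12*M) ≤ 0.1 := by
      rw [div_le_iff₀ (by positivity)]
      linarith
    rw [hν]; linarith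
  have hνpos : 0 < ν := by linarith
  -- bound for n
  have hn : (n:ℝ) ≤ L * ν := by
    have h1 := n_lt (by omega) h
    have h2 := log_ratio_ge (m := (m:ℝ)) (by linarith)
    have hK : 2 * (m:ℝ) - 1 = 2 * M - 3 := by rw [hMdef]; ring
    rw [hK] at h2
    have hn0 : (0:ℝ) ≤ n := Nat.cast_nonneg n
    have h3 : 1 ≤ ν * (2 / (2*M-3) + 2 / (3 * (2*M-3)^3)) := by
      have hKpos : 0 < 2*M-3 := by linarith
      obtain ⟨K, hKdef⟩ : ∃ K : ℝ, K = 2*M-3 := ⟨_, rfl⟩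
      rw [← hKdef] at hKpos ⊢
      have hMK : M = (K+3)/2 := by rw [hKdef]; ring
      have hK3 : 0 < K + 3 := by linarith
      have hKne : K ≠ 0 := ne_of_gt hKpos
      have hK3ne : K + 3 ≠ 0 := ne_of_gt hK3
      have e1 : ν * (2 / K + 2 / (3 * K^3)) - 1
          = (9 * K - 1) / (9 * (K+3) * K^3) := by
        rw [hν, hMK]
        field_simp
        ring
      have : 0 ≤ (9 * K - 1) / (9 * (K+3) * K^3) := by
        apply div_nonneg
        · linarith
        · positivity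
      linarith
    have h4 : (n:ℝ) * (2 / (2*M-3) + 2 / (3 * (2*M-3)^3)) ≤ L := by
      have := mul_le_mul_of_nonneg_left h2 hn0
      linarith
    have h5 := mul_le_mul_of_nonneg_right h4 hνpos.le
    have h6 := mul_le_mul_of_nonneg_left h3 hn0
    nlinarith
  -- termwise bound
  have term : ∀ j : ℕ, 1 ≤ j → 2 * j ≤ m + 1 →
      (1 + P (L * g (1/M) j)) * (1/2:ℝ)^j ≤ (1 - (j:ℝ) / M) ^ n := by
    intro j hj1 hj2
    have hj2' : 2 * (j:ℝ) ≤ M := by rw [hMdef]; exact_mod_cast hj2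
    have hx0 : 0 ≤ (j:ℝ) / M := by positivity
    have hx1 : (j:ℝ) / M ≤ 1/2 := by
      rw [div_le_iff₀ hMpos]
      linarith
    have h1 := log_one_sub_ge hx0 hx1
    set hh := (j:ℝ)/M + ((j:ℝ)/M)^2/2 + ((j:ℝ)/M)^3/3 + ((j:ℝ)/M)^4/2 with hhdef
    have hhpos : 0 ≤ hh := by positivity
    have h2 : (1 - (j:ℝ)/M)^n = Real.exp ((n:ℝ) * Real.log (1 - (j:ℝ)/M)) := by
      rw [mul_comm, Real.exp_mul, Real.exp_log (by linarith), Real.rpow_natCast]
    rw [h2]
    have h3 : -(L * (j:ℝ)) + L * g (1/M) j ≤ (n:ℝ) * Real.log (1 - (j:ℝ)/M) := by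
      rw [g_eq hMne, ← hν, ← hhdef]
      have hn0 : (0:ℝ) ≤ n := Nat.cast_nonneg n
      have a1 := mul_le_mul_of_nonneg_left h1 hn0
      have a2 := mul_le_mul_of_nonneg_right hn hhpos
      nlinarith
    refine le_trans ?_ (Real.exp_le_exp.mpr h3)
    rw [Real.exp_add]
    have h4 : Real.exp (-(L * (j:ℝ))) = (1/2:ℝ)^j := by
      rw [Real.exp_neg, Real.exp_mul, hL, Real.exp_log (by norm_num), Real.rpow_natCast, one_div, inv_pow]
    rw [h4, mul_comm]
    apply mul_le_mul_of_nonneg_left _ (by positivity)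
    have := cubic_le_exp (L * g (1/M) j)
    unfold P
    linarith
  -- the total sum
  have hs : HasSum (fun j : ℕ => (1 + P (L * g (1/M) j)) * (1/2:ℝ)^j) (2 + F L (1/M)) := by
    have h1 := (S_hasSum 0)
    rw [S0] at h1
    have h2 := h1.add (hasSum_P L (1/M))
    convert h2 using 1
    funext j
    ring
  have hFpos : 0 < F L (1/M) := by
    apply F_pos hL1 hL2 (by positivity)
    rw [div_le_div_iff₀ hMpos (by norm_num)]
    linarith
  set J := (m+1)/2 with hJ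
  have hle := sum_le_hasSum (Finset.range (J+1)) (fun j hj => by
    have hj' : J + 1 ≤ j := by
      rw [Finset.mem_range] at hj
      omega
    have h2j : m + 1 < 2 * j := by omega
    have h2j' : M < 2 * (j:ℝ) := by rw [hMdef]; exact_mod_cast h2j
    have : (1 + P (L * g (1/M) j)) ≤ 0 := by
      apply one_add_P_nonpos
      have hx : 1/2 ≤ (j:ℝ)/M := by
        rw [le_div_iff₀ hMpos]
        linarith
      have hg : g (1/M) j ≤ -49 := by
        rw [g_eq hMne, ← hν]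
        set x := (j:ℝ)/M with hx'
        have hjx : (j:ℝ) = M * x := by rw [hx']; field_simp
        rw [hjx]
        have b1 : x + x/4 ≤ x + x^2/2 + x^3/3 + x^4/2 := by
          have : 0 ≤ x^3 := by positivity
          have : 0 ≤ x^4 := by positivity
          nlinarith
        have b2 := mul_le_mul hνlow b1 (by linarith) hνpos.le
        nlinarith
      nlinarith
    have hp : (0:ℝ) ≤ (1/2)^j := by positivity
    show 0 ≤ -((1 + P (L * g (1/M) j)) * (1/2:ℝ)^j)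
    nlinarith) hs.neg
  rw [Finset.sum_neg_distrib, neg_le_neg_iff, Finset.sum_range_succ'] at hle
  have hz : (1 + P (L * g (1/M) ((0:ℕ):ℝ))) * (1/2:ℝ)^0 = 1 := by
    unfold P g
    simp
  rw [hz] at hle
  have hsub : ∑ k ∈ Finset.range J, (1 + P (L * g (1/M) ((k+1:ℕ):ℝ))) * (1/2:ℝ)^(k+1) ≤
      ∑ k ∈ Finset.range J, (1 - ((k+1:ℕ):ℝ) / M) ^ n := by
    apply Finset.sum_le_sum
    intro k hk
    rw [Finset.mem_range] at hk
    exact term (k+1) (by omega) (by omega)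
  have hsub2 : ∑ k ∈ Finset.range J, (1 - ((k+1:ℕ):ℝ) / M) ^ n ≤
      ∑ k ∈ Finset.range m, (1 - ((k+1:ℕ):ℝ) / M) ^ n := by
    apply Finset.sum_le_sum_of_subset_of_nonneg
    · intro k hk
      rw [Finset.mem_range] at hk ⊢
      omega
    · intro k hk _
      rw [Finset.mem_range] at hk
      apply pow_nonneg
      have : ((k+1:ℕ):ℝ) ≤ M := by rw [hMdef]; exact_mod_cast (by omega : k + 1 ≤ m + 1)
      rw [sub_nonneg, div_le_one hMpos]
      exact this
  have hlast : ∑ j ∈ Finset.Icc 1 m, (1 - (j:ℝ) / M) ^ n =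
      ∑ k ∈ Finset.range m, (1 - ((k+1:ℕ):ℝ) / M) ^ n := by
    rw [Finset.range_eq_Ico, Finset.sum_Ico_add' (fun k : ℕ => (1 - (k:ℝ) / M) ^ n) 0 m 1]
    rfl
  rw [hlast]
  linarith

end Pool.Agent.J4H98.EP
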