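import Pool.Agent.J4H98.EP4

set_option autoImplicit false

namespace Pool.Agent.J4H98.EP

open Finset

/-- power sum by structural recursion -/
def psum (n : ℕ) : ℕ → ℕ
  | 0 => 0
  | k+1 => psum n k + (k+1)^n

lemma psum_eq (n k : ℕ) : psum n k = ∑ i ∈ Finset.Icc 1 k, i ^ n := by
  induction k with
  | zero => simp [psum]
  | succ k ih =>
    rw [psum, ih, Finset.sum_Icc_succ_top (by omega)]

/-- one check -/
def chk (m n : ℕ) : Bool :=
  Nat.ble (2*(m-1)^n) (m^n) || (Nat.ble ((m-1)^n) (2*(m-2)^n) || Nat.blt ((m+1)^n) (psum n m))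

def chkRow (m : ℕ) : ℕ → Bool
  | 0 => true
  | k+1 => chkRow m k && chk m (k+1)

def chkAll : ℕ → Bool
  | 0 => true
  | k+1 => chkAll k && chkRow (k+2) (k+1)

lemma chkRow_spec {m k : ℕ} (h : chkRow m k = true) {n : ℕ} (h1 : 1 ≤ n) (h2 : n ≤ k) :
    chk m n = true := by
  induction k with
  | zero => omega
  | succ k ih =>
    rw [chkRow, Bool.and_eq_true] at h
    rcases Nat.lt_or_ge k n with h3 | h3
    · have : n = k + 1 := by omega
      rw [this]; exact h.2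
    · exact ih h.1 h3

lemma chkAll_spec {k : ℕ} (h : chkAll k = true) {m n : ℕ} (hm1 : 2 ≤ m) (hm2 : m ≤ k + 1)
    (h1 : 1 ≤ n) (h2 : n ≤ m - 1) :
    chk m n = true := by
  induction k with
  | zero => omega
  | succ k ih =>
    rw [chkAll, Bool.and_eq_true] at h
    rcases Nat.lt_or_ge (k+1) m with h3 | h3
    · have : m = k + 2 := by omega
      subst this
      exact chkRow_spec h.2 h1 (by omega)
    · exact ih h.1 h3

lemma chkAll_400 : chkAll 400 = true := by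
  decide +kernel

lemma small {m n : ℕ} (hn : 1 ≤ n) (hm : 2 ≤ m) (hm2 : m < 400)
    (h : (1 - 1 / (m : ℝ)) ^ n > 1 / 2) (h' : (1 - 1 / ((m : ℝ) - 1)) ^ n < 1 / 2) :
    (m + 1) ^ n < ∑ i ∈ Finset.Icc 1 m, i ^ n := by
  have hnm := n_lt_m hm h
  have hc := chkAll_spec chkAll_400 hm (by omega) hn (by omega)
  unfold chk at hc
  rw [Bool.or_eq_true, Bool.or_eq_true, Nat.ble_eq, Nat.ble_eq, Nat.blt_eq] at hc
  rw [← psum_eq]
  have hm3 : 3 ≤ m := by
    by_contra hcon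
    have h2 : m = 2 := by omega
    have h1 : n = 1 := by omega
    rw [h2, h1] at h
    norm_num at h
  obtain ⟨k, rfl⟩ : ∃ k, m = k + 3 := ⟨m - 3, by omega⟩
  have e1 : k + 3 - 1 = k + 2 := rfl
  have e2 : k + 3 - 2 = k + 1 := rfl
  rw [e1, e2] at hc
  have q1 : (1 - 1 / (((k+3:ℕ):ℝ))) = ((k:ℝ)+2)/((k:ℝ)+3) := by
    push_cast
    have : (k:ℝ)+3 ≠ 0 := by positivity
    field_simp
    ring
  have q2 : (1 - 1 / (((k+3:ℕ):ℝ) - 1)) = ((k:ℝ)+1)/((k:ℝ)+2) := by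
    push_cast
    have h1 : (k:ℝ)+3-1 = (k:ℝ)+2 := by ring
    rw [h1]
    have : (k:ℝ)+2 ≠ 0 := by positivity
    field_simp
    ring
  rw [q1, div_pow, gt_iff_lt, div_lt_div_iff₀ (by norm_num) (by positivity)] at h
  rw [q2, div_pow, div_lt_div_iff₀ (by positivity) (by norm_num)] at h'
  rcases hc with hc | hc | hc
  · exfalso
    have : 2 * ((k:ℝ)+2)^n ≤ ((k:ℝ)+3)^n := by exact_mod_cast hc
    linarith
  · exfalso
    have : ((k:ℝ)+2)^n ≤ 2 * ((k:ℝ)+1)^n := by exact_mod_cast hc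
    linarith
  · exact hc

lemma large {m n : ℕ} (hm : 400 ≤ m) (h : (1 - 1 / (m : ℝ)) ^ n > 1 / 2) :
    (m + 1) ^ n < ∑ i ∈ Finset.Icc 1 m, i ^ n := by
  have h1 := big hm h
  have hM : (0:ℝ) < (m:ℝ) + 1 := by positivity
  have h2 := mul_lt_mul_of_pos_right h1 (pow_pos hM n)
  rw [one_mul, Finset.sum_mul] at h2
  have h3 : ∑ j ∈ Finset.Icc 1 m, (1 - (j:ℝ) / ((m:ℝ)+1)) ^ n * ((m:ℝ)+1)^n
      = ∑ i ∈ Finset.Icc 1 m, (i:ℝ)^n := by
    apply Finset.sum_bij' (fun j _ => m + 1 - j) (fun j _ => m + 1 - j)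
    · intro j hj
      rw [Finset.mem_Icc] at hj ⊢
      omega
    · intro j hj
      rw [Finset.mem_Icc] at hj ⊢
      omega
    · intro j hj
      rw [Finset.mem_Icc] at hj
      show m + 1 - (m + 1 - j) = j
      omega
    · intro j hj
      rw [Finset.mem_Icc] at hj
      show m + 1 - (m + 1 - j) = j
      omega
    · intro j hj
      rw [Finset.mem_Icc] at hj
      rw [← mul_pow, sub_mul, div_mul_cancel₀ _ (ne_of_gt hM), one_mul]
      have : ((m + 1 - j : ℕ) : ℝ) = (m:ℝ) + 1 - j := by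
        rw [Nat.cast_sub (by omega)]
        push_cast
        ring
      rw [this]
  rw [h3] at h2
  exact_mod_cast h2

theorem second {m n : ℕ} (hn : 1 ≤ n) (hm : 2 ≤ m)
    (h : (1 - 1 / (m : ℝ)) ^ n > 1 / 2) (h' : (1 - 1 / ((m : ℝ) - 1)) ^ n < 1 / 2) :
    (m + 1) ^ n < ∑ i ∈ Finset.Icc 1 m, i ^ n := by
  rcases Nat.lt_or_ge m 400 with h1 | h1
  · exact small hn hm h1 h h'
  · exact large h1 h

theorem first {m n : ℕ} (hm : 2 ≤ m)
    (h' : (1 - 1 / ((m : ℝ) - 1)) ^ n < 1 / 2) :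
    (m - 1) ^ n > ∑ i ∈ Finset.Icc 1 (m - 2), i ^ n := by
  obtain ⟨k, rfl⟩ : ∃ k, m = k + 2 := ⟨m - 2, by omega⟩
  have e1 : k + 2 - 1 = k + 1 := rfl
  have e2 : k + 2 - 2 = k := rfl
  rw [e1, e2]
  have q : (((k+2:ℕ):ℝ) - 1) = (k:ℝ) + 1 := by
    push_cast; ring
  rw [q] at h'
  have hK : (0:ℝ) < (k:ℝ) + 1 := by positivity
  have hx : 1 / ((k:ℝ)+1) ≤ 1 := by
    rw [div_le_one hK]
    have : (0:ℝ) ≤ k := Nat.cast_nonneg k
    linarith
  have ha0 : 0 ≤ (1 - 1 / ((k : ℝ) + 1)) := by linarith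
  -- Bernoulli
  have key : ∀ j ∈ Finset.Icc 1 k, (1 - (j:ℝ) / ((k:ℝ)+1)) ^ n ≤ (1/2:ℝ)^j := by
    intro j hj
    rw [Finset.mem_Icc] at hj
    have hb := one_add_mul_le_pow (a := -(1 / ((k:ℝ)+1))) (by linarith) j
    have h1 : 0 ≤ 1 - (j:ℝ) / ((k:ℝ)+1) := by
      rw [sub_nonneg, div_le_one hK]
      have : (j:ℝ) ≤ k := by exact_mod_cast hj.2
      linarith
    have h2 : 1 - (j:ℝ) / ((k:ℝ)+1) ≤ (1 - 1 / ((k : ℝ) + 1))^j := by
      calc 1 - (j:ℝ) / ((k:ℝ)+1) = 1 + (j:ℝ) * (-(1 / ((k:ℝ)+1))) := by ring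
        _ ≤ _ := hb
        _ = _ := by ring
    calc (1 - (j:ℝ) / ((k:ℝ)+1)) ^ n ≤ ((1 - 1 / ((k : ℝ) + 1))^j)^n := pow_le_pow_left₀ h1 h2 n
      _ = ((1 - 1 / ((k : ℝ) + 1))^n)^j := by rw [← pow_mul, ← pow_mul, mul_comm]
      _ ≤ (1/2:ℝ)^j := pow_le_pow_left₀ (pow_nonneg ha0 n) h'.le j
  have hsum : ∑ j ∈ Finset.Icc 1 k, (1 - (j:ℝ) / ((k:ℝ)+1)) ^ n < 1 := by
    refine lt_of_le_of_lt (Finset.sum_le_sum key) ?_
    have : ∀ k : ℕ, ∑ j ∈ Finset.Icc 1 k, (1/2:ℝ)^j = 1 - (1/2)^k := by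
      intro k
      induction k with
      | zero => simp
      | succ k ih =>
        rw [Finset.sum_Icc_succ_top (by omega), ih]
        ring
    rw [this]
    have : (0:ℝ) < (1/2)^k := by positivity
    linarith
  have h2 := mul_lt_mul_of_pos_right hsum (pow_pos hK n)
  rw [one_mul, Finset.sum_mul] at h2
  have h3 : ∑ j ∈ Finset.Icc 1 k, (1 - (j:ℝ) / ((k:ℝ)+1)) ^ n * ((k:ℝ)+1)^n
      = ∑ i ∈ Finset.Icc 1 k, (i:ℝ)^n := by
    apply Finset.sum_bij' (fun j _ => k + 1 - j) (fun j _ => k + 1 - j)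
    · intro j hj
      rw [Finset.mem_Icc] at hj ⊢
      omega
    · intro j hj
      rw [Finset.mem_Icc] at hj ⊢
      omega
    · intro j hj
      rw [Finset.mem_Icc] at hj
      show k + 1 - (k + 1 - j) = j
      omega
    · intro j hj
      rw [Finset.mem_Icc] at hj
      show k + 1 - (k + 1 - j) = j
      omega
    · intro j hj
      rw [Finset.mem_Icc] at hj
      rw [← mul_pow, sub_mul, div_mul_cancel₀ _ (ne_of_gt hK), one_mul]
      have : ((k + 1 - j : ℕ) : ℝ) = (k:ℝ) + 1 - j := by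
        rw [Nat.cast_sub (by omega)]
        push_cast
        ring
      rw [this]
  rw [h3] at h2
  exact_mod_cast h2

end Pool.Agent.J4H98.EP
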